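import Pool.Agent.Helper14.TK.StA

/-!
# Project T3K, module CRMT: the argument of Cramer for the twisted path
-/

set_option autoImplicit false

namespace Pool.Agent.Helper36.TA

open Pool.Agent.Helper14.TK Pool.Agent.Helper14.T3 Pool.Agent.Helper14.CV Pool.Agent.Helper14.W3 Pool.Agent.Helper78.W3
open Pool.Agent.Helper14.TT (eXb)
open Pool.Agent.Helper76.TX (eX)
open Pool.Agent.Helper78.WK3 (Lft3)

/-- composition of a potential with an additive homomorphism -/
private def mp {R S : Type} [AddCommGroup R] [AddCommGroup S] (φ : R →+ S) (G : ℤ → ℤ → R) :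
    ℤ → ℤ → S := fun p q => φ (G p q)

private theorem Tl_mp {R S : Type} [AddCommGroup R] [AddCommGroup S] (φ : R →+ S) (l : ℕ) (m : ℤ)
    (G : ℤ → ℤ → R) : Tl l m (mp φ G) = mp φ (Tl l m G) := by
  funext p q
  simp only [Tl, mp, map_add, map_sum]

private theorem Bo_mp {R S : Type} [AddCommGroup R] [AddCommGroup S] (φ : R →+ S) (m : ℤ)
    (G : ℤ → ℤ → R) : Bo m (mp φ G) = mp φ (Bo m G) := by
  unfold Bo
  rw [Tl_mp, Tl_mp, Tl_mp]
  funext p q
  simp only [mp, Pi.add_apply, Pi.sub_apply, map_add, map_sub]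

private theorem evTb_mp {R S : Type} [AddCommGroup R] [AddCommGroup S] (φ : R →+ S) (D : ℕ) (m : ℤ)
    (G : ℤ → ℤ → R) (i j : ℕ) : evTb D m (mp φ G) i j = φ (evTb D m G i j) := by
  have h1 : ∀ (i : ℕ) (G : ℤ → ℤ → R), (Tl 2 m)^[i] (mp φ G) = mp φ ((Tl 2 m)^[i] G) := by
    intro i
    induction i with
    | zero => intro G; rfl
    | succ i ih =>
      intro G
      rw [Function.iterate_succ_apply, Function.iterate_succ_apply, Tl_mp, ih]
  have h2 : ∀ (j : ℕ) (G : ℤ → ℤ → R), (Bo m)^[j] (mp φ G) = mp φ ((Bo m)^[j] G) := by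
    intro j
    induction j with
    | zero => intro G; rfl
    | succ j ih =>
      intro G
      rw [Function.iterate_succ_apply, Function.iterate_succ_apply, Bo_mp, ih]
  unfold evTb eXb
  rw [h1, h2, map_sum]
  refine Finset.sum_congr rfl fun a _ => ?_
  rw [map_zsmul, map_sub]
  rfl

private theorem evTb_add {R : Type} [AddCommGroup R] (D : ℕ) (m : ℤ) (G H : ℤ → ℤ → R) (i j : ℕ) :
    evTb D m (G + H) i j = evTb D m G i j + evTb D m H i j := by
  unfold evTb eXb
  rw [Tl_iter_add, Bo_iter_add, ← Finset.sum_add_distrib]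
  refine Finset.sum_congr rfl fun a _ => ?_
  rw [← smul_add]
  congr 1
  simp only [Pi.add_apply]
  abel

private theorem evTb_congr {R : Type} [AddCommGroup R] {D : ℕ} (hD : D ≠ 0) (m : ℤ)
    {G H : ℤ → ℤ → R} (h : EqC G H) (i j : ℕ) : evTb D m G i j = evTb D m H i j := by
  have h2 := (h.Tl_iter (l := 2) (by norm_num) m i).Bo_iter m j
  unfold evTb eXb
  refine Finset.sum_congr rfl fun a _ => ?_
  congr 1
  exact h2.diff (Or.inr (by exact_mod_cast hD)) (Or.inl one_ne_zero)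

private theorem evT_eq (D : ℕ) (G : ℤ → ℤ → ℂ) (i j : ℕ) : evT D G i j = evTb D 1 G i j := by
  rw [evT_apply]
  unfold evTb eXb eX
  simp only [one_mul]

private theorem Sym3_mp {R S : Type} [AddCommGroup R] [AddCommGroup S] (φ : R →+ S) {r s : ℕ}
    {G : ℤ → ℤ → R} (h : Sym3 r s G) : Sym3 r s (mp φ G) := by
  refine ⟨fun k p q hk hpq => congrArg φ (h.1 k p q hk hpq), fun a b c d hd hb hc => ?_⟩
  obtain ⟨e, he⟩ := h.2 a b c d hd hb hc
  refine ⟨φ e, fun p q hpq => ?_⟩
  have := congrArg φ (he p q hpq)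
  rw [map_add] at this
  exact this

/-- the value as an additive homomorphism -/
private def evA (D i j : ℕ) : (ℤ → ℤ → ℤ) →+ ℤ :=
  AddMonoidHom.mk' (fun G => evTb D 1 G i j) (fun G H => evTb_add D 1 G H i j)

private theorem Sym3_zero {r s : ℕ} : Sym3 r s (0 : ℤ → ℤ → ℤ) :=
  ⟨fun _ _ _ _ _ => rfl, fun _ _ _ _ _ _ _ => ⟨0, fun _ _ _ => by simp [act]⟩⟩

private theorem Sym3_sum {n : ℕ} {r s : ℕ} (G : Fin n → ℤ → ℤ → ℤ) (h : ∀ k, Sym3 r s (G k))
    (z : Fin n → ℤ) : Sym3 r s (∑ k, z k • G k) := by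
  classical
  refine Finset.sum_induction (fun k => z k • G k) (fun H => Sym3 r s H)
    (fun _ _ h1 h2 => h1.add h2) Sym3_zero (fun k _ => (h k).smul (z k))

theorem hCRMT : StCRMT := by
  intro _hU hDim hLft D s dd hH m M g hm hg hev
  obtain ⟨Gt, hGt, hEq⟩ := hLft m M g (by omega) hg
  obtain ⟨Gk, ij, hGk, hdet⟩ := hH.fam m hm
  set X : Matrix (Fin (DDg dd m)) (Fin (DDg dd m)) ℤ :=
    Matrix.of fun k l => evTb D 1 (Gk k) (ij l).1 (ij l).2 with hX
  set XC : Matrix (Fin (DDg dd m)) (Fin (DDg dd m)) ℂ := X.map (Int.castRingHom ℂ) with hXC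
  have hd0 : X.det ≠ 0 := by
    intro h
    rw [h] at hdet
    exact hdet (dvd_zero _)
  have hdC : XC.det = (X.det : ℂ) := by
    rw [hXC]
    exact (RingHom.map_det (Int.castRingHom ℂ) X).symm
  have hdC0 : XC.det ≠ 0 := by
    rw [hdC]
    exact_mod_cast hd0
  set φ : ℤ →+ ℂ := Int.castAddHom ℂ with hφ
  have hφa : ∀ z : ℤ, φ z = (z : ℂ) := fun z => rfl
  have hev' : ∀ (H : ℤ → ℤ → ℤ) (i j : ℕ), evT D (mp φ H) i j = ((evTb D 1 H i j : ℤ) : ℂ) := by
    intro H i j
    rw [evT_eq, evTb_mp, hφa]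
  have hXCa : ∀ k l, XC k l = evT D (mp φ (Gk k)) (ij l).1 (ij l).2 := by
    intro k l
    rw [hev']
    rfl
  -- independence
  have hind : LinearIndependent ℂ (fun k => evT D (mp φ (Gk k))) := by
    rw [Fintype.linearIndependent_iff]
    intro c hc
    have h1 : Matrix.vecMul c XC = 0 := by
      funext l
      have h2 := congrFun (congrFun hc (ij l).1) (ij l).2
      simp only [Finset.sum_apply, Pi.smul_apply, Pi.zero_apply, smul_eq_mul] at h2
      simp only [Matrix.vecMul, dotProduct, Pi.zero_apply]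
      rw [← h2]
      refine Finset.sum_congr rfl fun k _ => ?_
      rw [hXCa]
    have h3 := Matrix.eq_zero_of_vecMul_eq_zero hdC0 h1
    exact fun k => congrFun h3 k
  have hspan := hDim D s dd hH m (fun k => mp φ (Gk k)) hm (fun k => Sym3_mp φ (hGk k)) hind
    (mp φ Gt) (Sym3_mp φ hGt)
  rw [Submodule.mem_span_range_iff_exists_fun] at hspan
  obtain ⟨y, hy⟩ := hspan
  have hy' : ∀ i j : ℕ, ∑ k, y k * ((evTb D 1 (Gk k) i j : ℤ) : ℂ) =
      ((evTb D 1 Gt i j : ℤ) : ℂ) := by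
    intro i j
    have h2 := congrFun (congrFun hy i) j
    simp only [Finset.sum_apply, Pi.smul_apply, smul_eq_mul] at h2
    rw [hev' Gt i j] at h2
    rw [← h2]
    refine Finset.sum_congr rfl fun k _ => ?_
    rw [hev' (Gk k) i j]
  -- divisibility
  have hdiv : ∀ i j : ℕ, (3 : ℤ) ^ M ∣ evTb D 1 Gt i j := by
    intro i j
    have h1 : evTb D 1 (mp (Int.castAddHom (ZMod (3 ^ M))) Gt) i j = evTb D 1 g i j :=
      evTb_congr hH.d0 1 hEq i j
    rw [evTb_mp, hev] at h1
    have h2 : ((evTb D 1 Gt i j : ℤ) : ZMod (3 ^ M)) = 0 := h1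
    rw [ZMod.intCast_zmod_eq_zero_iff_dvd] at h2
    exact_mod_cast h2
  choose e he using hdiv
  set z : Fin (DDg dd m) → ℤ := fun k => ∑ l, e (ij l).1 (ij l).2 * X.adjugate l k with hz
  have hdy : ∀ k, (X.det : ℂ) * y k = (3 : ℂ) ^ M * (z k : ℂ) := by
    intro k
    have h1 : Matrix.vecMul y XC = fun l => ((evTb D 1 Gt (ij l).1 (ij l).2 : ℤ) : ℂ) := by
      funext l
      rw [← hy']
      simp only [Matrix.vecMul, dotProduct]
      refine Finset.sum_congr rfl fun k _ => ?_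
      rw [hXCa, hev']
    have h2 : Matrix.vecMul (Matrix.vecMul y XC) XC.adjugate = XC.det • y := by
      rw [Matrix.vecMul_vecMul, Matrix.mul_adjugate, Matrix.vecMul_smul, Matrix.vecMul_one]
    have h3 : XC.adjugate = X.adjugate.map (Int.castRingHom ℂ) := by
      rw [hXC]
      exact (RingHom.map_adjugate (Int.castRingHom ℂ) X).symm
    have h4 := congrFun h2 k
    rw [h1, h3, hdC] at h4
    simp only [Matrix.vecMul, dotProduct, Pi.smul_apply, smul_eq_mul, Matrix.map_apply] at h4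
    rw [← h4, hz]
    push_cast
    rw [Finset.mul_sum]
    refine Finset.sum_congr rfl fun l _ => ?_
    rw [he]
    push_cast
    simp only [eq_intCast]
    ring
  refine ⟨X.det, X.det • Gt + -((3 : ℤ) ^ M • ∑ k, z k • Gk k), hdet, ?_, ?_, ?_⟩
  · exact (hGt.smul _).add ((Sym3_sum Gk hGk z).smul _).neg
  · intro i j
    have h1 : evTb D 1 (X.det • Gt + -((3 : ℤ) ^ M • ∑ k, z k • Gk k)) i j =
        X.det * evTb D 1 Gt i j + -(3 ^ M * ∑ k, z k * evTb D 1 (Gk k) i j) := by
      change evA D i j (X.det • Gt + -((3 : ℤ) ^ M • ∑ k, z k • Gk k)) = _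
      rw [map_add, map_neg, map_zsmul, map_zsmul, map_sum, smul_eq_mul, smul_eq_mul]
      have h2 : ∑ k, (evA D i j) (z k • Gk k) = ∑ k, z k * evTb D 1 (Gk k) i j := by
        refine Finset.sum_congr rfl fun k _ => ?_
        rw [map_zsmul, smul_eq_mul]
        rfl
      rw [h2]
      rfl
    rw [h1]
    have h2 : ((X.det * evTb D 1 Gt i j + -(3 ^ M * ∑ k, z k * evTb D 1 (Gk k) i j) : ℤ) : ℂ) = 0 := by
      have hdy2 := hdy
      revert hdy2
      generalize X.det = d
      intro hdy2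
      push_cast
      rw [← hy', Finset.mul_sum, Finset.mul_sum, ← sub_eq_add_neg, ← Finset.sum_sub_distrib]
      refine Finset.sum_eq_zero fun k _ => ?_
      have := hdy2 k
      linear_combination ((evTb D 1 (Gk k) i j : ℤ) : ℂ) * this
    exact_mod_cast h2
  · obtain ⟨c, hc⟩ := hEq
    refine ⟨X.det • c, fun p q hpq => ?_⟩
    have h1 : ((Gt p q : ℤ) : ZMod (3 ^ M)) = g p q + c := hc p q hpq
    have h0 : (X.det • Gt + -((3 : ℤ) ^ M • ∑ k, z k • Gk k)) p q =
        X.det * Gt p q + -((3 : ℤ) ^ M * (∑ k, z k • Gk k) p q) := rfl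
    have h3 : ((3 : ZMod (3 ^ M)) ^ M) = 0 := by
      have := ZMod.natCast_self (3 ^ M)
      push_cast at this
      exact this
    change (((X.det • Gt + -((3 : ℤ) ^ M • ∑ k, z k • Gk k)) p q : ℤ) : ZMod (3 ^ M)) =
      X.det • g p q + X.det • c
    rw [h0]
    generalize (∑ k, z k • Gk k) p q = w
    generalize X.det = d
    push_cast
    rw [h1, h3, zsmul_eq_mul, zsmul_eq_mul]
    ring

end Pool.Agent.Helper36.TA
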